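import Mathlib

/-!
# Random-cluster weights on finite multigraphs with edge dependent probabilities

Edges are the elements of a finite type `ι`, the map `φ` sends an edge to its pair of end vertices;
parallel edges and loops are allowed. Adapted from `Pool.Agent.Helper85.RCBasic`/`RCLieb` (simple
graphs, one probability).
-/

set_option linter.unusedSectionVars false
set_option autoImplicit false

open Finset

namespace Pool.Agent.Helper30.RCM

open Classical

universe u v

variable {V : Type u} [Fintype V] {ι : Type v} [Fintype ι]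

/-- The spanning subgraph of the open edges: two distinct vertices are adjacent if some open edge
joins them (loops and multiplicities do not matter for connections). -/
def gr (φ : ι → Sym2 V) (ω : Finset ι) : SimpleGraph V :=
  SimpleGraph.fromEdgeSet (φ '' (ω : Set ι))

/-- `a` and `b` lie in the same component of `gr φ ω`. -/
def Conn (φ : ι → Sym2 V) (ω : Finset ι) (a b : V) : Prop := (gr φ ω).Reachable a b

/-- number of components -/
noncomputable def kc (φ : ι → Sym2 V) (ω : Finset ι) : ℕ := Nat.card (gr φ ω).ConnectedComponent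

variable {φ : ι → Sym2 V}

lemma gr_mono {ω ω' : Finset ι} (h : ω ⊆ ω') : gr φ ω ≤ gr φ ω' :=
  SimpleGraph.fromEdgeSet_mono (Set.image_mono (by exact_mod_cast h))

lemma Conn.refl (ω : Finset ι) (a : V) : Conn φ ω a a := SimpleGraph.Reachable.refl a

lemma Conn.symm {ω : Finset ι} {a b : V} (h : Conn φ ω a b) : Conn φ ω b a :=
  SimpleGraph.Reachable.symm h

lemma Conn.trans {ω : Finset ι} {a b c : V} (h : Conn φ ω a b) (h' : Conn φ ω b c) :
    Conn φ ω a c := SimpleGraph.Reachable.trans h h'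

lemma Conn.mono {ω ω' : Finset ι} (h : ω ⊆ ω') {a b : V} (hc : Conn φ ω a b) :
    Conn φ ω' a b := SimpleGraph.Reachable.mono (gr_mono h) hc

lemma conn_of_mem {ω : Finset ι} {e : ι} {a b : V} (he : φ e = s(a, b)) (h : e ∈ ω) :
    Conn φ ω a b := by
  by_cases hab : a = b
  · subst hab; exact Conn.refl _ _
  · exact SimpleGraph.Adj.reachable (by
      rw [gr, SimpleGraph.fromEdgeSet_adj]
      exact ⟨⟨e, by exact_mod_cast h, he⟩, hab⟩)

lemma conn_insert {ω : Finset ι} {e : ι} {a b u v : V} (he : φ e = s(a, b)) :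
    Conn φ (insert e ω) u v ↔
      Conn φ ω u v ∨ (Conn φ ω u a ∧ Conn φ ω b v) ∨ (Conn φ ω u b ∧ Conn φ ω a v) := by
  constructor
  · intro h
    obtain ⟨w⟩ := h
    induction w with
    | nil => exact Or.inl (Conn.refl _ _)
    | @cons u w v hadj p ih =>
      rw [gr, SimpleGraph.fromEdgeSet_adj] at hadj
      obtain ⟨⟨e', hmem, he'⟩, hne⟩ := hadj
      simp only [coe_insert, Set.mem_insert_iff, mem_coe] at hmem
      rcases hmem with heq | hmem
      · subst heq
        rw [he, Sym2.eq_iff] at he'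
        rcases he' with ⟨rfl, rfl⟩ | ⟨rfl, rfl⟩
        · rcases ih with h | ⟨h1, h2⟩ | ⟨h1, h2⟩
          · exact Or.inr (Or.inl ⟨Conn.refl _ _, h⟩)
          · exact Or.inr (Or.inl ⟨Conn.refl _ _, h2⟩)
          · exact Or.inl h2
        · rcases ih with h | ⟨h1, h2⟩ | ⟨h1, h2⟩
          · exact Or.inr (Or.inr ⟨Conn.refl _ _, h⟩)
          · exact Or.inl h2
          · exact Or.inr (Or.inr ⟨Conn.refl _ _, h2⟩)
      · have hc : Conn φ ω u w := conn_of_mem he' hmem
        rcases ih with h | ⟨h1, h2⟩ | ⟨h1, h2⟩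
        · exact Or.inl (hc.trans h)
        · exact Or.inr (Or.inl ⟨hc.trans h1, h2⟩)
        · exact Or.inr (Or.inr ⟨hc.trans h1, h2⟩)
  · have hs : ω ⊆ insert e ω := subset_insert _ _
    have hab : Conn φ (insert e ω) a b := conn_of_mem he (mem_insert_self _ _)
    rintro (h | ⟨h1, h2⟩ | ⟨h1, h2⟩)
    · exact h.mono hs
    · exact ((h1.mono hs).trans hab).trans (h2.mono hs)
    · exact ((h1.mono hs).trans hab.symm).trans (h2.mono hs)

lemma kc_insert_of_conn {ω : Finset ι} {e : ι} {a b : V} (he : φ e = s(a, b))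
    (h : Conn φ ω a b) : kc φ (insert e ω) = kc φ ω := by
  have hle : gr φ ω ≤ gr φ (insert e ω) := gr_mono (subset_insert _ _)
  refine (Nat.card_congr (Equiv.ofBijective
    (fun c : (gr φ ω).ConnectedComponent => c.map (SimpleGraph.Hom.ofLE hle)) ⟨?_, ?_⟩)).symm
  · intro c d hcd
    induction c using SimpleGraph.ConnectedComponent.ind with | _ u =>
    induction d using SimpleGraph.ConnectedComponent.ind with | _ v =>
    simp only [SimpleGraph.ConnectedComponent.map_mk, SimpleGraph.ConnectedComponent.eq] at hcd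
    rw [SimpleGraph.ConnectedComponent.eq]
    have hcd' : Conn φ (insert e ω) u v := hcd
    rw [conn_insert he] at hcd'
    rcases hcd' with h1 | ⟨h1, h2⟩ | ⟨h1, h2⟩
    · exact h1
    · exact (h1.trans h).trans h2
    · exact (h1.trans h.symm).trans h2
  · intro c
    induction c using SimpleGraph.ConnectedComponent.ind with | _ u =>
    exact ⟨(gr φ ω).connectedComponentMk u, rfl⟩

lemma kc_insert_of_not_conn {ω : Finset ι} {e : ι} {a b : V} (he : φ e = s(a, b))
    (h : ¬ Conn φ ω a b) : kc φ (insert e ω) + 1 = kc φ ω := by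
  have hle : gr φ ω ≤ gr φ (insert e ω) := gr_mono (subset_insert _ _)
  have hab : Conn φ (insert e ω) a b := conn_of_mem he (mem_insert_self _ _)
  set cb := (gr φ ω).connectedComponentMk b with hcb
  have eqv : {c : (gr φ ω).ConnectedComponent // c ≠ cb} ≃
      (gr φ (insert e ω)).ConnectedComponent := by
    refine Equiv.ofBijective (fun c => c.1.map (SimpleGraph.Hom.ofLE hle)) ⟨?_, ?_⟩
    · rintro ⟨c, hc⟩ ⟨d, hd⟩ hcd
      induction c using SimpleGraph.ConnectedComponent.ind with | _ u =>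
      induction d using SimpleGraph.ConnectedComponent.ind with | _ v =>
      simp only [SimpleGraph.ConnectedComponent.map_mk, SimpleGraph.ConnectedComponent.eq] at hcd
      rw [Subtype.mk.injEq, SimpleGraph.ConnectedComponent.eq]
      have hcd' : Conn φ (insert e ω) u v := hcd
      rw [conn_insert he] at hcd'
      rw [hcb, Ne, SimpleGraph.ConnectedComponent.eq] at hc hd
      rcases hcd' with h1 | ⟨h1, h2⟩ | ⟨h1, h2⟩
      · exact h1
      · exact absurd h2.symm hd
      · exact absurd h1 hc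
    · intro c
      induction c using SimpleGraph.ConnectedComponent.ind with | _ u =>
      by_cases hu : Conn φ ω u b
      · refine ⟨⟨(gr φ ω).connectedComponentMk a, ?_⟩, ?_⟩
        · rw [hcb, Ne, SimpleGraph.ConnectedComponent.eq]; exact h
        · simp only [SimpleGraph.ConnectedComponent.map_mk, SimpleGraph.ConnectedComponent.eq]
          exact hab.trans (hu.symm.mono (subset_insert _ _))
      · refine ⟨⟨(gr φ ω).connectedComponentMk u, ?_⟩, rfl⟩
        rw [hcb, Ne, SimpleGraph.ConnectedComponent.eq]; exact hu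
  unfold kc
  rw [← Nat.card_congr eqv, ← Finite.card_option]
  exact Nat.card_congr (Equiv.optionSubtypeNe cb)

/-- one-edge supermodularity -/
lemma kc_insert_super {A B : Finset ι} (h : A ⊆ B) (e : ι) :
    kc φ (insert e A) + kc φ B ≤ kc φ A + kc φ (insert e B) := by
  obtain ⟨⟨a, b⟩, he⟩ : ∃ ab : V × V, φ e = s(ab.1, ab.2) := by
    induction h' : φ e using Sym2.ind with | _ a b => exact ⟨(a, b), rfl⟩
  by_cases hB : Conn φ B a b
  · rw [kc_insert_of_conn he hB]
    by_cases hA : Conn φ A a b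
    · rw [kc_insert_of_conn he hA]
    · have := kc_insert_of_not_conn he hA; omega
  · have hA : ¬ Conn φ A a b := fun hA => hB (hA.mono h)
    have h1 := kc_insert_of_not_conn he hA
    have h2 := kc_insert_of_not_conn he hB
    omega

lemma kc_union_super {A B : Finset ι} (h : A ⊆ B) (C : Finset ι) :
    kc φ (A ∪ C) + kc φ B ≤ kc φ A + kc φ (B ∪ C) := by
  induction C using Finset.induction_on with
  | empty => simp
  | insert e C he ih =>
    have h1 := kc_insert_super (φ := φ) (union_subset_union_left h (t := C)) e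
    rw [union_insert, union_insert]
    omega

lemma kc_supermodular (A B : Finset ι) :
    kc φ A + kc φ B ≤ kc φ (A ∩ B) + kc φ (A ∪ B) := by
  have := kc_union_super (φ := φ) (A := A ∩ B) (B := A) inter_subset_left B
  have h2 : A ∩ B ∪ B = B := by
    rw [union_eq_right]; exact inter_subset_right
  rw [h2] at this
  omega

/-! ### weights -/

/-- factor gained by opening the edge `e` -/
noncomputable def theta (φ : ι → Sym2 V) (q : ℝ) (e : ι) (ω : Finset ι) : ℝ :=
  if (∀ a b : V, φ e = s(a, b) → Conn φ ω a b) then 1 else q⁻¹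

lemma theta_mk (q : ℝ) {e : ι} {a b : V} (he : φ e = s(a, b)) (ω : Finset ι) :
    theta φ q e ω = if Conn φ ω a b then 1 else q⁻¹ := by
  unfold theta
  congr 1
  refine propext ⟨fun h => h a b he, fun h c d hcd => ?_⟩
  rw [he, Sym2.eq_iff] at hcd
  rcases hcd with ⟨rfl, rfl⟩ | ⟨rfl, rfl⟩
  · exact h
  · exact h.symm

lemma pow_kc_insert {q : ℝ} (hq : 1 ≤ q) (e : ι) (ω : Finset ι) :
    q ^ kc φ (insert e ω) = q ^ kc φ ω * theta φ q e ω := by
  have hq0 : q ≠ 0 := by positivity
  obtain ⟨⟨a, b⟩, he⟩ : ∃ ab : V × V, φ e = s(ab.1, ab.2) := by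
    induction h' : φ e using Sym2.ind with | _ a b => exact ⟨(a, b), rfl⟩
  rw [theta_mk q he]
  split_ifs with h
  · rw [kc_insert_of_conn he h, mul_one]
  · rw [← kc_insert_of_not_conn he h, pow_succ, mul_assoc, mul_inv_cancel₀ hq0, mul_one]

lemma theta_pos {q : ℝ} (hq : 1 ≤ q) (e : ι) (ω : Finset ι) : 0 < theta φ q e ω := by
  unfold theta; split_ifs <;> positivity

lemma theta_mono {q : ℝ} (hq : 1 ≤ q) (e : ι) : Monotone (theta φ q e) := by
  intro ω ω' h
  unfold theta
  have hq1 : q⁻¹ ≤ 1 := inv_le_one_of_one_le₀ hq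
  split_ifs with h1 h2 h2
  · exact le_rfl
  · exact absurd (fun a b hab => (h1 a b hab).mono h) h2
  · exact hq1
  · exact le_rfl

/-- random-cluster weight of the configuration `ω` on the edge set `E` -/
noncomputable def wt (φ : ι → Sym2 V) (p : ι → ℝ) (q : ℝ) (E ω : Finset ι) : ℝ :=
  (∏ e ∈ ω, p e) * (∏ e ∈ E \ ω, (1 - p e)) * q ^ kc φ ω

/-- weighted sum -/
noncomputable def S (φ : ι → Sym2 V) (p : ι → ℝ) (q : ℝ) (E : Finset ι)
    (f : Finset ι → ℝ) : ℝ :=
  ∑ ω ∈ E.powerset, wt φ p q E ω * f ω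

variable {p : ι → ℝ} {q : ℝ}

lemma wt_nonneg (hp : ∀ e, 0 ≤ p e) (hp1 : ∀ e, p e ≤ 1) (hq : 1 ≤ q) (E ω : Finset ι) :
    0 ≤ wt φ p q E ω := by
  unfold wt
  have h1 : 0 ≤ ∏ e ∈ ω, p e := Finset.prod_nonneg fun e _ => hp e
  have h2 : 0 ≤ ∏ e ∈ E \ ω, (1 - p e) := Finset.prod_nonneg fun e _ => sub_nonneg.mpr (hp1 e)
  positivity

lemma S_insert (hq : 1 ≤ q) {E : Finset ι} {e : ι} (he : e ∉ E)
    (f : Finset ι → ℝ) :
    S φ p q (insert e E) f =
      (1 - p e) * S φ p q E f + p e * S φ p q E (fun ω => theta φ q e ω * f (insert e ω)) := by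
  unfold S
  rw [Finset.sum_powerset_insert he, Finset.mul_sum, Finset.mul_sum]
  congr 1
  · refine Finset.sum_congr rfl fun ω hω => ?_
    have heω : e ∉ ω := fun h => he (mem_powerset.mp hω h)
    have h1 : insert e E \ ω = insert e (E \ ω) := insert_sdiff_of_notMem E heω
    have h2 : e ∉ E \ ω := fun h => he (mem_sdiff.mp h).1
    unfold wt
    rw [h1, Finset.prod_insert h2]
    ring
  · refine Finset.sum_congr rfl fun ω hω => ?_
    have heω : e ∉ ω := fun h => he (mem_powerset.mp hω h)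
    have h1 : insert e E \ insert e ω = E \ ω := by
      ext x
      simp only [mem_sdiff, mem_insert]
      constructor
      · rintro ⟨h1 | h1, h2⟩
        · exact absurd (Or.inl h1) h2
        · exact ⟨h1, fun h => h2 (Or.inr h)⟩
      · rintro ⟨h1, h2⟩
        refine ⟨Or.inr h1, ?_⟩
        rintro (h | h)
        · exact he (h ▸ h1)
        · exact h2 h
    unfold wt
    rw [h1, Finset.prod_insert heω, pow_kc_insert hq]
    ring

lemma S_nonneg (hp : ∀ e, 0 ≤ p e) (hp1 : ∀ e, p e ≤ 1) (hq : 1 ≤ q) (E : Finset ι)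
    {f : Finset ι → ℝ} (hf : ∀ ω, 0 ≤ f ω) : 0 ≤ S φ p q E f :=
  Finset.sum_nonneg fun ω _ => mul_nonneg (wt_nonneg hp hp1 hq E ω) (hf ω)

lemma S_mono (hp : ∀ e, 0 ≤ p e) (hp1 : ∀ e, p e ≤ 1) (hq : 1 ≤ q) (E : Finset ι)
    {f g : Finset ι → ℝ} (h : ∀ ω, f ω ≤ g ω) : S φ p q E f ≤ S φ p q E g :=
  Finset.sum_le_sum fun ω _ => mul_le_mul_of_nonneg_left (h ω) (wt_nonneg hp hp1 hq E ω)

lemma S_add (E : Finset ι) (f g : Finset ι → ℝ) :
    S φ p q E (fun ω => f ω + g ω) = S φ p q E f + S φ p q E g := by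
  unfold S; rw [← Finset.sum_add_distrib]; simp only [mul_add]

lemma S_sub (E : Finset ι) (f g : Finset ι → ℝ) :
    S φ p q E (fun ω => f ω - g ω) = S φ p q E f - S φ p q E g := by
  unfold S; rw [← Finset.sum_sub_distrib]; simp only [mul_sub]

lemma S_mul (E : Finset ι) (c : ℝ) (f : Finset ι → ℝ) :
    S φ p q E (fun ω => c * f ω) = c * S φ p q E f := by
  unfold S; rw [Finset.mul_sum]; exact Finset.sum_congr rfl fun ω _ => by ring

lemma S_one_pos (hp : ∀ e, 0 ≤ p e) (hp1 : ∀ e, p e ≤ 1) (hq : 1 ≤ q) (E : Finset ι) :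
    0 < S φ p q E (fun _ => 1) := by
  induction E using Finset.induction_on with
  | empty =>
    unfold S wt
    simp
    positivity
  | insert e E he ih =>
    rw [S_insert hq he]
    have h1 : q⁻¹ * S φ p q E (fun _ => 1) ≤ S φ p q E (fun ω => theta φ q e ω * 1) := by
      rw [← S_mul]
      refine S_mono hp hp1 hq E fun ω => ?_
      simp only [mul_one]
      unfold theta
      split_ifs
      · exact inv_le_one_of_one_le₀ hq
      · exact le_rfl
    have h2 : 0 < q⁻¹ * S φ p q E (fun _ => 1) := by positivity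
    have h3 : 0 < S φ p q E (fun ω => theta φ q e ω * 1) := lt_of_lt_of_le h2 h1
    rcases eq_or_lt_of_le (hp e) with hpe | hp0
    · rw [← hpe]; simpa using ih
    · have : 0 ≤ (1 - p e) * S φ p q E (fun _ => 1) :=
        mul_nonneg (by linarith [hp1 e]) ih.le
      have : 0 < p e * S φ p q E (fun ω => theta φ q e ω * 1) := by positivity
      linarith

/-- FKG inequality for the random-cluster weights -/
lemma S_fkg (hp : ∀ e, 0 ≤ p e) (hp1 : ∀ e, p e ≤ 1) (hq : 1 ≤ q) (E : Finset ι)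
    {f g : Finset ι → ℝ} (hf0 : ∀ ω, 0 ≤ f ω) (hg0 : ∀ ω, 0 ≤ g ω) (hf : Monotone f)
    (hg : Monotone g) :
    S φ p q E f * S φ p q E g ≤ S φ p q E (fun _ => 1) * S φ p q E (fun ω => f ω * g ω) := by
  set μ : Finset ι → ℝ := fun ω => if ω ⊆ E then wt φ p q E ω else 0 with hμ
  have hS : ∀ h : Finset ι → ℝ, S φ p q E h = ∑ ω, μ ω * h ω := by
    intro h
    unfold S
    have : E.powerset = Finset.univ.filter (fun ω => ω ⊆ E) := by ext ω; simp
    rw [this, Finset.sum_filter]
    refine Finset.sum_congr rfl fun ω _ => ?_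
    simp only [hμ]; split_ifs <;> simp
  have key := fkg (α := Finset ι) (β := ℝ) (f := f) (g := g) (μ := μ) ?_ hf0 hg0 hf hg ?_
  · rw [hS, hS, hS, hS]
    simpa using key
  · intro ω
    simp only [hμ, Pi.zero_apply]
    split_ifs
    · exact wt_nonneg hp hp1 hq E ω
    · exact le_rfl
  · intro a b
    simp only [hμ, Finset.inf_eq_inter, Finset.sup_eq_union]
    by_cases ha : a ⊆ E
    · by_cases hb : b ⊆ E
      · have hi : a ∩ b ⊆ E := inter_subset_left.trans ha
        have hu : a ∪ b ⊆ E := union_subset ha hb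
        rw [if_pos ha, if_pos hb, if_pos hi, if_pos hu]
        unfold wt
        have hx1 : (∏ e ∈ a ∩ b, p e) * (∏ e ∈ a ∪ b, p e) = (∏ e ∈ a, p e) * ∏ e ∈ b, p e := by
          rw [mul_comm]; exact Finset.prod_union_inter
        have hx2 : (∏ e ∈ E \ (a ∩ b), (1 - p e)) * (∏ e ∈ E \ (a ∪ b), (1 - p e)) =
            (∏ e ∈ E \ a, (1 - p e)) * ∏ e ∈ E \ b, (1 - p e) := by
          have h1 : E \ (a ∩ b) = (E \ a) ∪ (E \ b) := by
            ext x; simp only [mem_sdiff, mem_inter, mem_union]; tauto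
          have h2 : E \ (a ∪ b) = (E \ a) ∩ (E \ b) := by
            ext x; simp only [mem_sdiff, mem_inter, mem_union]; tauto
          rw [h1, h2]
          exact Finset.prod_union_inter
        have e1 : (∏ e ∈ a, p e) * (∏ e ∈ E \ a, (1 - p e)) * q ^ kc φ a *
            ((∏ e ∈ b, p e) * (∏ e ∈ E \ b, (1 - p e)) * q ^ kc φ b) =
            ((∏ e ∈ a, p e) * ∏ e ∈ b, p e) *
              ((∏ e ∈ E \ a, (1 - p e)) * ∏ e ∈ E \ b, (1 - p e)) *
              q ^ (kc φ a + kc φ b) := by rw [pow_add]; ring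
        have e2 : (∏ e ∈ a ∩ b, p e) * (∏ e ∈ E \ (a ∩ b), (1 - p e)) * q ^ kc φ (a ∩ b) *
            ((∏ e ∈ a ∪ b, p e) * (∏ e ∈ E \ (a ∪ b), (1 - p e)) * q ^ kc φ (a ∪ b)) =
            ((∏ e ∈ a, p e) * ∏ e ∈ b, p e) *
              ((∏ e ∈ E \ a, (1 - p e)) * ∏ e ∈ E \ b, (1 - p e)) *
              q ^ (kc φ (a ∩ b) + kc φ (a ∪ b)) := by
          rw [← hx1, ← hx2, pow_add]; ring
        rw [e1, e2]
        refine mul_le_mul_of_nonneg_left (pow_le_pow_right₀ hq (kc_supermodular a b)) ?_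
        have h1 : 0 ≤ ∏ e ∈ a, p e := Finset.prod_nonneg fun e _ => hp e
        have h2 : 0 ≤ ∏ e ∈ b, p e := Finset.prod_nonneg fun e _ => hp e
        have h3 : 0 ≤ ∏ e ∈ E \ a, (1 - p e) :=
          Finset.prod_nonneg fun e _ => sub_nonneg.mpr (hp1 e)
        have h4 : 0 ≤ ∏ e ∈ E \ b, (1 - p e) :=
          Finset.prod_nonneg fun e _ => sub_nonneg.mpr (hp1 e)
        positivity
      · rw [if_neg hb, mul_zero]
        refine mul_nonneg ?_ ?_ <;> split_ifs <;>
          first | exact wt_nonneg hp hp1 hq E _ | exact le_rfl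
    · rw [if_neg ha, zero_mul]
      refine mul_nonneg ?_ ?_ <;> split_ifs <;>
        first | exact wt_nonneg hp hp1 hq E _ | exact le_rfl

/-! ### expectations -/

/-- random-cluster expectation on the edge set `E` -/
noncomputable def ex (φ : ι → Sym2 V) (p : ι → ℝ) (q : ℝ) (E : Finset ι)
    (f : Finset ι → ℝ) : ℝ :=
  S φ p q E f / S φ p q E (fun _ => 1)

/-- indicator of connection -/
noncomputable def ind (φ : ι → Sym2 V) (a b : V) (ω : Finset ι) : ℝ :=
  if Conn φ ω a b then 1 else 0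

lemma ind_nonneg (a b : V) (ω : Finset ι) : 0 ≤ ind φ a b ω := by
  unfold ind; split_ifs <;> simp

lemma ind_le_one (a b : V) (ω : Finset ι) : ind φ a b ω ≤ 1 := by
  unfold ind; split_ifs <;> simp

lemma ind_mono (a b : V) : Monotone (ind φ a b) := by
  intro ω ω' h
  unfold ind
  split_ifs with h1 h2 h2
  · exact le_rfl
  · exact absurd (h1.mono h) h2
  · exact zero_le_one
  · exact le_rfl

section

variable (hp : ∀ e, 0 ≤ p e) (hp1 : ∀ e, p e ≤ 1) (hq : 1 ≤ q)

include hp hp1 hq

lemma ex_nonneg (E : Finset ι) {f : Finset ι → ℝ} (hf : ∀ ω, 0 ≤ f ω) :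
    0 ≤ ex φ p q E f :=
  div_nonneg (S_nonneg hp hp1 hq E hf) (S_one_pos hp hp1 hq E).le

lemma ex_le (E : Finset ι) {f g : Finset ι → ℝ} (h : ∀ ω, f ω ≤ g ω) :
    ex φ p q E f ≤ ex φ p q E g :=
  div_le_div_of_nonneg_right (S_mono hp hp1 hq E h) (S_one_pos hp hp1 hq E).le

lemma ex_const (E : Finset ι) (c : ℝ) : ex φ p q E (fun _ => c) = c := by
  have h := S_one_pos (φ := φ) hp hp1 hq E
  unfold ex
  have : S φ p q E (fun _ => c) = c * S φ p q E (fun _ => 1) := by
    rw [← S_mul]; simp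
  rw [this]; field_simp

omit hp hp1 hq in
lemma ex_add (E : Finset ι) (f g : Finset ι → ℝ) :
    ex φ p q E (fun ω => f ω + g ω) = ex φ p q E f + ex φ p q E g := by
  unfold ex; rw [S_add, add_div]

omit hp hp1 hq in
lemma ex_sub (E : Finset ι) (f g : Finset ι → ℝ) :
    ex φ p q E (fun ω => f ω - g ω) = ex φ p q E f - ex φ p q E g := by
  unfold ex; rw [S_sub, sub_div]

omit hp hp1 hq in
lemma ex_mul (E : Finset ι) (c : ℝ) (f : Finset ι → ℝ) :
    ex φ p q E (fun ω => c * f ω) = c * ex φ p q E f := by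
  unfold ex; rw [S_mul, mul_div_assoc]

lemma ex_fkg (E : Finset ι) {f g : Finset ι → ℝ} (hf0 : ∀ ω, 0 ≤ f ω)
    (hg0 : ∀ ω, 0 ≤ g ω) (hf : Monotone f) (hg : Monotone g) :
    ex φ p q E f * ex φ p q E g ≤ ex φ p q E (fun ω => f ω * g ω) := by
  have h := S_one_pos (φ := φ) hp hp1 hq E
  have := S_fkg (φ := φ) hp hp1 hq E hf0 hg0 hf hg
  unfold ex
  rw [div_mul_div_comm, div_le_div_iff₀ (by positivity) h]
  nlinarith

lemma ex_fkg_anti (E : Finset ι) {N g : Finset ι → ℝ}
    (hg0 : ∀ ω, 0 ≤ g ω) (hN : Antitone N) (hg : Monotone g) :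
    ex φ p q E (fun ω => N ω * g ω) ≤ ex φ p q E N * ex φ p q E g := by
  have h1 : ∀ ω, 0 ≤ N ∅ - N ω := fun ω => sub_nonneg.mpr (hN (empty_subset ω))
  have h2 : Monotone fun ω => N ∅ - N ω := fun ω ω' h => by
    have := hN h; simp only; linarith
  have h3 := ex_fkg (φ := φ) hp hp1 hq E h1 hg0 h2 hg
  have e1 : ex φ p q E (fun ω => N ∅ - N ω) = N ∅ - ex φ p q E N := by
    rw [ex_sub, ex_const hp hp1 hq]
  have e2 : ex φ p q E (fun ω => (N ∅ - N ω) * g ω) =
      N ∅ * ex φ p q E g - ex φ p q E (fun ω => N ω * g ω) := by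
    simp only [sub_mul]
    rw [ex_sub, ex_mul]
  rw [e1, e2] at h3
  linarith

lemma norm_pos (E : Finset ι) (e : ι) : 0 < (1 - p e) + p e * ex φ p q E (theta φ q e) := by
  have h1 : q⁻¹ ≤ ex φ p q E (theta φ q e) := by
    rw [← ex_const (φ := φ) hp hp1 hq E q⁻¹]
    refine ex_le hp hp1 hq E fun ω => ?_
    unfold theta; split_ifs
    · exact inv_le_one_of_one_le₀ hq
    · exact le_rfl
  have hq0 : 0 < q⁻¹ := by positivity
  rcases eq_or_lt_of_le (hp e) with hpe | hp0
  · rw [← hpe]; simp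
  · have : 0 < p e * ex φ p q E (theta φ q e) := mul_pos hp0 (lt_of_lt_of_le hq0 h1)
    linarith [hp1 e]

lemma ex_insert {E : Finset ι} {e : ι} (he : e ∉ E) (f : Finset ι → ℝ) :
    ex φ p q (insert e E) f =
      ((1 - p e) * ex φ p q E f + p e * ex φ p q E (fun ω => theta φ q e ω * f (insert e ω))) /
        ((1 - p e) + p e * ex φ p q E (theta φ q e)) := by
  have h := S_one_pos (φ := φ) hp hp1 hq E
  have hn := norm_pos (φ := φ) hp hp1 hq E e
  have e1 : ex φ p q (insert e E) f = S φ p q (insert e E) f / S φ p q (insert e E) (fun _ => 1) := rfl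
  have e2 : S φ p q (insert e E) (fun _ => 1) =
      S φ p q E (fun _ => 1) * ((1 - p e) + p e * ex φ p q E (theta φ q e)) := by
    rw [S_insert hq he]
    unfold ex
    simp only [mul_one]
    field_simp
  have e3 : S φ p q (insert e E) f = S φ p q E (fun _ => 1) *
      ((1 - p e) * ex φ p q E f + p e * ex φ p q E (fun ω => theta φ q e ω * f (insert e ω))) := by
    rw [S_insert hq he]
    unfold ex
    field_simp
  rw [e1, e2, e3, mul_div_mul_left _ _ h.ne']

lemma ex_insert_mono {E : Finset ι} {e : ι} (he : e ∉ E) {f : Finset ι → ℝ}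
    (hf0 : ∀ ω, 0 ≤ f ω) (hf : Monotone f) : ex φ p q E f ≤ ex φ p q (insert e E) f := by
  rw [ex_insert hp hp1 hq he, le_div_iff₀ (norm_pos hp hp1 hq E e)]
  have h1 : ex φ p q E (theta φ q e) * ex φ p q E f ≤
      ex φ p q E (fun ω => theta φ q e ω * f (insert e ω)) :=
    (ex_fkg hp hp1 hq E (fun ω => (theta_pos hq e ω).le) hf0 (theta_mono hq e) hf).trans
      (ex_le hp hp1 hq E fun ω => mul_le_mul_of_nonneg_left (hf (subset_insert _ _))
        (theta_pos hq e ω).le)
  have h2 := mul_le_mul_of_nonneg_left h1 (hp e)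
  linarith

lemma ex_union_mono (E K : Finset ι) {f : Finset ι → ℝ}
    (hf0 : ∀ ω, 0 ≤ f ω) (hf : Monotone f) : ex φ p q E f ≤ ex φ p q (E ∪ K) f := by
  induction K using Finset.induction_on with
  | empty => simp
  | insert e K he ih =>
    rw [union_insert]
    by_cases h : e ∈ E ∪ K
    · rw [insert_eq_of_mem h]; exact ih
    · exact ih.trans (ex_insert_mono hp hp1 hq h hf0 hf)

lemma ex_union_anti (E K : Finset ι) {N : Finset ι → ℝ}
    (hN : Antitone N) : ex φ p q (E ∪ K) N ≤ ex φ p q E N := by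
  have h1 : ∀ ω, 0 ≤ N ∅ - N ω := fun ω => sub_nonneg.mpr (hN (empty_subset ω))
  have h2 : Monotone fun ω => N ∅ - N ω := fun ω ω' h => by
    have := hN h; simp only; linarith
  have h3 := ex_union_mono (φ := φ) hp hp1 hq E K h1 h2
  rw [ex_sub, ex_sub, ex_const hp hp1 hq, ex_const hp hp1 hq] at h3
  linarith

end

lemma not_conn_of_isolated {ω : Finset ι} {x v : V} (h : ∀ e ∈ ω, x ∉ φ e) (hxv : x ≠ v) :
    ¬ Conn φ ω x v := by
  rintro ⟨w⟩
  cases w with
  | nil => exact hxv rfl
  | cons hadj _ =>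
    rw [gr, SimpleGraph.fromEdgeSet_adj] at hadj
    obtain ⟨⟨e, he, hee⟩, _⟩ := hadj
    exact h e (by exact_mod_cast he) (hee ▸ Sym2.mem_mk_left _ _)

/-- the key pointwise identity -/
lemma key_identity (hq : 1 ≤ q) {e : ι} {x b : V} (he : φ e = s(x, b)) (z : V)
    (ω : Finset ι) (n : ℝ) :
    q * (theta φ q e ω * (n * ind φ x z (insert e ω))) =
      (q - 1) * (n * ind φ x z ω) + (n * ind φ b z ω +
        (2 - q) * ((n * (1 - ind φ x b ω)) * ind φ x z ω)) := by
  have hq0 : q ≠ 0 := by positivity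
  have hins : ind φ x z (insert e ω) = if Conn φ ω x z ∨ Conn φ ω b z then 1 else 0 := by
    unfold ind
    congr 1
    refine propext ?_
    rw [conn_insert he]
    constructor
    · rintro (h | ⟨_, h⟩ | ⟨_, h⟩)
      · exact Or.inl h
      · exact Or.inr h
      · exact Or.inl h
    · rintro (h | h)
      · exact Or.inl h
      · exact Or.inr (Or.inl ⟨Conn.refl _ _, h⟩)
  rw [hins, theta_mk q he]
  unfold ind
  by_cases hxb : Conn φ ω x b
  · by_cases hxz : Conn φ ω x z
    · have hbz : Conn φ ω b z := hxb.symm.trans hxz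
      simp [hxb, hxz, hbz]
      ring
    · have hbz : ¬ Conn φ ω b z := fun h => hxz (hxb.trans h)
      simp [hxb, hxz, hbz]
  · by_cases hxz : Conn φ ω x z
    · have hbz : ¬ Conn φ ω b z := fun h => hxb (hxz.trans h.symm)
      simp [hxb, hxz, hbz]
      field_simp
      ring
    · by_cases hbz : Conn φ ω b z
      · simp [hxb, hxz, hbz]
        field_simp
      · simp [hxb, hxz, hbz]

lemma ind_self (a : V) (ω : Finset ι) : ind φ a a ω = 1 := by
  unfold ind; rw [if_pos (Conn.refl _ _)]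

lemma caseA (hp : ∀ e, 0 ≤ p e) (hp1 : ∀ e, p e ≤ 1) (hq : 1 ≤ q) {W : Finset V} {z x : V}
    (hx : x ∈ W) (F K : Finset ι) {N : Finset ι → ℝ} (hN0 : ∀ ω, 0 ≤ N ω)
    (hN : Antitone N) :
    ex φ p q (F ∪ K) (fun ω => N ω * ind φ x z ω) ≤
      ∑ y ∈ W, ex φ p q F (fun ω => N ω * ind φ x y ω) * ex φ p q (F ∪ K) (ind φ y z) := by
  have h1 : ex φ p q (F ∪ K) (fun ω => N ω * ind φ x z ω) ≤
      ex φ p q F (fun ω => N ω * ind φ x x ω) * ex φ p q (F ∪ K) (ind φ x z) := by
    simp only [ind_self, mul_one]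
    refine (ex_fkg_anti hp hp1 hq (F ∪ K) (ind_nonneg x z) hN (ind_mono x z)).trans ?_
    exact mul_le_mul_of_nonneg_right (ex_union_anti hp hp1 hq F K hN)
      (ex_nonneg hp hp1 hq _ (ind_nonneg x z))
  refine h1.trans ?_
  refine Finset.single_le_sum
    (f := fun y => ex φ p q F (fun ω => N ω * ind φ x y ω) * ex φ p q (F ∪ K) (ind φ y z))
    (fun y _ => ?_) hx
  exact mul_nonneg (ex_nonneg hp hp1 hq _ fun ω => mul_nonneg (hN0 ω) (ind_nonneg _ _ ω))
    (ex_nonneg hp hp1 hq _ (ind_nonneg y z))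

lemma ex_eq_zero {E : Finset ι} {f : Finset ι → ℝ}
    (h : ∀ ω, ω ⊆ E → f ω = 0) : ex φ p q E f = 0 := by
  unfold ex S
  rw [Finset.sum_eq_zero, zero_div]
  intro ω hω
  rw [h ω (mem_powerset.mp hω), mul_zero]

/-- The Lieb inequality with a decreasing weight `N`. -/
theorem lieb_aux (hp : ∀ e, 0 ≤ p e) (hp1 : ∀ e, p e ≤ 1) (hq : 1 ≤ q) (hq2 : q ≤ 2)
    {W : Finset V} {U : Set V} {K : Finset ι} {z : V}
    (hK : ∀ e ∈ K, ∀ v ∈ φ e, v ∉ U) (hz : z ∉ U) :
    ∀ (n : ℕ) (F : Finset ι), F.card ≤ n → (∀ e ∈ F, ∀ v ∈ φ e, v ∈ U ∨ v ∈ W) →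
      Disjoint F K → ∀ N : Finset ι → ℝ, (∀ ω, 0 ≤ N ω) → Antitone N →
      ∀ x : V, (x ∈ U ∨ x ∈ W) →
      ex φ p q (F ∪ K) (fun ω => N ω * ind φ x z ω) ≤
        ∑ y ∈ W, ex φ p q F (fun ω => N ω * ind φ x y ω) * ex φ p q (F ∪ K) (ind φ y z) := by
  intro n
  induction n with
  | zero =>
    intro F hF hFW hdisj N hN0 hN x hx
    have hF0 : F = ∅ := by rw [← Finset.card_eq_zero]; omega
    rcases hx with hxU | hxW
    · have hxz : x ≠ z := fun h => hz (h ▸ hxU)
      have h0 : ex φ p q (F ∪ K) (fun ω => N ω * ind φ x z ω) = 0 := by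
        refine ex_eq_zero fun ω hω => ?_
        have : ¬ Conn φ ω x z := by
          refine not_conn_of_isolated (fun e he hxe => ?_) hxz
          have he' := hω he
          rw [hF0, empty_union] at he'
          exact hK e he' x hxe hxU
        simp [ind, this]
      rw [h0]
      exact Finset.sum_nonneg fun y _ =>
        mul_nonneg (ex_nonneg hp hp1 hq _ fun ω => mul_nonneg (hN0 ω) (ind_nonneg _ _ ω))
          (ex_nonneg hp hp1 hq _ (ind_nonneg y z))
    · exact caseA hp hp1 hq hxW F K hN0 hN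
  | succ n ih =>
    intro F hF hFW hdisj N hN0 hN x hx
    rcases hx with hxU | hxW
    swap
    · exact caseA hp hp1 hq hxW F K hN0 hN
    by_cases hex : ∃ e ∈ F, x ∈ φ e
    swap
    · push Not at hex
      have hxz : x ≠ z := fun h => hz (h ▸ hxU)
      have h0 : ex φ p q (F ∪ K) (fun ω => N ω * ind φ x z ω) = 0 := by
        refine ex_eq_zero fun ω hω => ?_
        have : ¬ Conn φ ω x z := by
          refine not_conn_of_isolated (fun e he hxe => ?_) hxz
          rcases mem_union.mp (hω he) with he' | he'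
          · exact hex e he' hxe
          · exact hK e he' x hxe hxU
        simp [ind, this]
      rw [h0]
      exact Finset.sum_nonneg fun y _ =>
        mul_nonneg (ex_nonneg hp hp1 hq _ fun ω => mul_nonneg (hN0 ω) (ind_nonneg _ _ ω))
          (ex_nonneg hp hp1 hq _ (ind_nonneg y z))
    obtain ⟨e, heF, hxe⟩ := hex
    obtain ⟨b, hedef⟩ : ∃ b, φ e = s(x, b) := hxe
    set F' := F.erase e with hF'
    have hFe : F = insert e F' := (insert_erase heF).symm
    have heF' : e ∉ F' := notMem_erase _ _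
    have heK : e ∉ K := fun h => (Finset.disjoint_left.mp hdisj heF) h
    have heG : e ∉ F' ∪ K := by
      rw [mem_union]; rintro (h | h); exacts [heF' h, heK h]
    have hcard : F'.card ≤ n := by
      rw [hF', Finset.card_erase_of_mem heF]; omega
    have hFW' : ∀ e ∈ F', ∀ v ∈ φ e, v ∈ U ∨ v ∈ W := fun e' he' =>
      hFW e' (mem_of_mem_erase he')
    have hdisj' : Disjoint F' K := Finset.disjoint_of_subset_left (erase_subset _ _) hdisj
    have hbUW : b ∈ U ∨ b ∈ W := hFW e heF b (hedef ▸ Sym2.mem_mk_right _ _)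
    -- the shifted decreasing functions
    set N1 : Finset ι → ℝ := fun ω => N (insert e ω) with hN1
    have hN1anti : Antitone N1 := fun ω ω' h => hN (insert_subset_insert e h)
    have hN10 : ∀ ω, 0 ≤ N1 ω := fun ω => hN0 _
    set N2 : Finset ι → ℝ := fun ω => N1 ω * (1 - ind φ x b ω) with hN2
    have hind1 : ∀ ω, 0 ≤ 1 - ind φ x b ω := fun ω => sub_nonneg.mpr (ind_le_one x b ω)
    have hN20 : ∀ ω, 0 ≤ N2 ω := fun ω => mul_nonneg (hN10 ω) (hind1 ω)
    have hN2anti : Antitone N2 := fun ω ω' h =>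
      mul_le_mul (hN1anti h) (sub_le_sub_left (ind_mono x b h) 1) (hind1 _) (hN10 _)
    have hq0 : 0 < q := by linarith
    -- expectation of the shifted functional, any edge set, any target
    have hshift : ∀ (E : Finset ι) (v : V),
        q * ex φ p q E (fun ω => theta φ q e ω * (N (insert e ω) * ind φ x v (insert e ω))) =
        (q - 1) * ex φ p q E (fun ω => N1 ω * ind φ x v ω) + (ex φ p q E (fun ω => N1 ω * ind φ b v ω) +
          (2 - q) * ex φ p q E (fun ω => N2 ω * ind φ x v ω)) := by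
      intro E v
      rw [← ex_mul, ← ex_mul, ← ex_mul, ← ex_add, ← ex_add]
      congr 1
      funext ω
      exact key_identity hq hedef v ω (N (insert e ω))
    -- shorthand
    set G := F' ∪ K with hG
    set C : V → ℝ := fun y => ex φ p q G (ind φ y z) with hC
    have hC0 : ∀ y, 0 ≤ C y := fun y => ex_nonneg hp hp1 hq _ (ind_nonneg y z)
    set A : V → ℝ := fun y => ex φ p q F' (fun ω => N ω * ind φ x y ω) with hA
    have hA0 : ∀ y, 0 ≤ A y := fun y =>
      ex_nonneg hp hp1 hq _ fun ω => mul_nonneg (hN0 ω) (ind_nonneg _ _ ω)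
    set B : V → ℝ := fun y =>
      ex φ p q F' (fun ω => theta φ q e ω * (N (insert e ω) * ind φ x y (insert e ω))) with hB
    have hB0 : ∀ y, 0 ≤ B y := fun y => ex_nonneg hp hp1 hq _ fun ω =>
      mul_nonneg (theta_pos hq e ω).le (mul_nonneg (hN0 _) (ind_nonneg _ _ _))
    set D : V → ℝ := fun y => ex φ p q G (fun ω => theta φ q e ω * ind φ y z (insert e ω)) with hD
    -- (i)
    have h1 : ex φ p q G (fun ω => N ω * ind φ x z ω) ≤ ∑ y ∈ W, A y * C y :=
      ih F' hcard hFW' hdisj' N hN0 hN x (Or.inl hxU)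
    -- (ii)
    have h2 : ex φ p q G (fun ω => theta φ q e ω * (N (insert e ω) * ind φ x z (insert e ω))) ≤
        ∑ y ∈ W, B y * C y := by
      have hh := ih F' hcard hFW' hdisj' N1 hN10 hN1anti x (Or.inl hxU)
      have hh2 := ih F' hcard hFW' hdisj' N1 hN10 hN1anti b hbUW
      have hh3 := ih F' hcard hFW' hdisj' N2 hN20 hN2anti x (Or.inl hxU)
      have hl := hshift G z
      have hr : q * ∑ y ∈ W, B y * C y = (q - 1) * (∑ y ∈ W, ex φ p q F' (fun ω => N1 ω * ind φ x y ω) * C y)
          + ((∑ y ∈ W, ex φ p q F' (fun ω => N1 ω * ind φ b y ω) * C y)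
          + (2 - q) * ∑ y ∈ W, ex φ p q F' (fun ω => N2 ω * ind φ x y ω) * C y) := by
        rw [Finset.mul_sum, Finset.mul_sum, Finset.mul_sum, ← Finset.sum_add_distrib,
          ← Finset.sum_add_distrib]
        refine Finset.sum_congr rfl fun y _ => ?_
        have := hshift F' y
        rw [hB]
        simp only
        rw [← mul_assoc, this]
        ring
      have h4 := mul_le_mul_of_nonneg_left hh (show 0 ≤ q - 1 by linarith)
      have h5 := mul_le_mul_of_nonneg_left hh3 (show 0 ≤ 2 - q by linarith)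
      have : q * ex φ p q G (fun ω => theta φ q e ω * (N (insert e ω) * ind φ x z (insert e ω))) ≤
          q * ∑ y ∈ W, B y * C y := by
        rw [hl, hr]
        linarith
      exact le_of_mul_le_mul_left this hq0
    -- (iii)
    have h3 : ∀ y, ex φ p q F' (theta φ q e) * C y ≤ D y := by
      intro y
      have e1 : ex φ p q F' (theta φ q e) ≤ ex φ p q G (theta φ q e) :=
        ex_union_mono hp hp1 hq F' K (fun ω => (theta_pos hq e ω).le) (theta_mono hq e)
      have e2 : ex φ p q G (theta φ q e) * C y ≤ ex φ p q G (fun ω => theta φ q e ω * ind φ y z ω) :=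
        ex_fkg hp hp1 hq G (fun ω => (theta_pos hq e ω).le) (ind_nonneg y z) (theta_mono hq e)
          (ind_mono y z)
      have e3 : ex φ p q G (fun ω => theta φ q e ω * ind φ y z ω) ≤ D y :=
        ex_le hp hp1 hq G fun ω => mul_le_mul_of_nonneg_left
          (ind_mono y z (subset_insert _ _)) (theta_pos hq e ω).le
      exact ((mul_le_mul_of_nonneg_right e1 (hC0 y)).trans e2).trans e3
    -- assemble
    have hnG := norm_pos (φ := φ) hp hp1 hq G e
    have hnF := norm_pos (φ := φ) hp hp1 hq F' e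
    have hunion : F ∪ K = insert e G := by rw [hFe, insert_union]
    have hexG : ∀ f, ex φ p q (F ∪ K) f = ((1 - p e) * ex φ p q G f + p e * ex φ p q G
        (fun ω => theta φ q e ω * f (insert e ω))) / ((1 - p e) + p e * ex φ p q G (theta φ q e)) := by
      intro f; rw [hunion, ex_insert hp hp1 hq heG]
    have hexF : ∀ f, ex φ p q F f = ((1 - p e) * ex φ p q F' f + p e * ex φ p q F'
        (fun ω => theta φ q e ω * f (insert e ω))) / ((1 - p e) + p e * ex φ p q F' (theta φ q e)) := by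
      intro f
      conv_lhs => rw [hFe]
      rw [ex_insert hp hp1 hq heF']
    have hterm : ∀ y ∈ W, ((1 - p e) * A y + p e * B y) * C y / ((1 - p e) + p e * ex φ p q G (theta φ q e)) ≤
        ex φ p q F (fun ω => N ω * ind φ x y ω) * ex φ p q (F ∪ K) (ind φ y z) := by
      intro y _
      rw [hexF, hexG, div_mul_div_comm, div_le_div_iff₀ hnG (mul_pos hnF hnG)]
      have hAB : 0 ≤ (1 - p e) * A y + p e * B y :=
        add_nonneg (mul_nonneg (by linarith [hp1 e]) (hA0 y)) (mul_nonneg (hp e) (hB0 y))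
      have hCD : ((1 - p e) + p e * ex φ p q F' (theta φ q e)) * C y ≤ (1 - p e) * C y + p e * D y := by
        have := mul_le_mul_of_nonneg_left (h3 y) (hp e)
        linarith
      have := mul_le_mul_of_nonneg_left hCD (mul_nonneg hAB hnG.le)
      calc ((1 - p e) * A y + p e * B y) * C y *
            (((1 - p e) + p e * ex φ p q F' (theta φ q e)) * ((1 - p e) + p e * ex φ p q G (theta φ q e)))
          = ((1 - p e) * A y + p e * B y) * ((1 - p e) + p e * ex φ p q G (theta φ q e)) *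
            (((1 - p e) + p e * ex φ p q F' (theta φ q e)) * C y) := by ring
        _ ≤ ((1 - p e) * A y + p e * B y) * ((1 - p e) + p e * ex φ p q G (theta φ q e)) *
            ((1 - p e) * C y + p e * D y) := this
        _ = ((1 - p e) * A y + p e * B y) * ((1 - p e) * C y + p e * D y) *
            ((1 - p e) + p e * ex φ p q G (theta φ q e)) := by ring
    refine le_trans ?_ (Finset.sum_le_sum hterm)
    rw [hexG, ← Finset.sum_div]
    refine div_le_div_of_nonneg_right ?_ hnG.le
    have e1 : ∑ y ∈ W, ((1 - p e) * A y + p e * B y) * C y =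
        (1 - p e) * (∑ y ∈ W, A y * C y) + p e * ∑ y ∈ W, B y * C y := by
      rw [Finset.mul_sum, Finset.mul_sum, ← Finset.sum_add_distrib]
      exact Finset.sum_congr rfl fun y _ => by ring
    rw [e1]
    exact add_le_add (mul_le_mul_of_nonneg_left h1 (by linarith [hp1 e]))
      (mul_le_mul_of_nonneg_left h2 (hp e))

end Pool.Agent.Helper30.RCM
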